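import Mathlib
import Pool.Agent.H940R2.Vanish
import Pool.Agent.W474.Ver.Lead

/-!
The variables `x₀, …, xₙ` divided into three groups, and the blocks of monomials which miss one
group and have the same degree `k` in the two other ones.
-/

set_option autoImplicit false

namespace Pool.Agent.Y830.VN

open MvPolynomial Finset
open Pool.Agent.W474.Ver
open Pool.Agent.H940R2 (sg sg_anti sg_mul_self sg_ne_zero vanish)

variable {n : ℕ} (c : Fin (n + 1) → Fin 3)

/-- the variables of a group -/
def fib (m : Fin 3) : Finset (Fin (n + 1)) := univ.filter (fun a => c a = m)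

lemma mem_fib {m : Fin 3} {a : Fin (n + 1)} : a ∈ fib c m ↔ c a = m := by simp [fib]

/-- the degree of an exponent vector in a group of variables -/
def gs (u : Fin (n + 1) →₀ ℕ) (m : Fin 3) : ℕ := ∑ a ∈ fib c m, u a

lemma sum_gs (u : Fin (n + 1) →₀ ℕ) : ∑ a, u a = ∑ m, gs c u m := by
  rw [← Finset.sum_fiberwise univ c (fun a => u a)]
  rfl

lemma gs_add (u v : Fin (n + 1) →₀ ℕ) (m : Fin 3) : gs c (u + v) m = gs c u m + gs c v m := by
  simp [gs, Finset.sum_add_distrib]

lemma gs_sub {u v : Fin (n + 1) →₀ ℕ} (h : v ≤ u) (m : Fin 3) :
    gs c (u - v) m + gs c v m = gs c u m := by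
  rw [← gs_add, tsub_add_cancel_of_le h]

lemma gs_ge {u : Fin (n + 1) →₀ ℕ} (h : ∀ a, 1 ≤ u a) (m : Fin 3) : (fib c m).card ≤ gs c u m := by
  rw [gs, Finset.card_eq_sum_ones]
  exact Finset.sum_le_sum fun a _ => h a

lemma gs_pos {u : Fin (n + 1) →₀ ℕ} (hc : ∀ m, (fib c m).Nonempty) (h : ∀ a, 1 ≤ u a)
    (m : Fin 3) : 1 ≤ gs c u m :=
  (Finset.card_pos.mpr (hc m)).trans_le (gs_ge c h m)

lemma gs_congr {u v : Fin (n + 1) →₀ ℕ} {m : Fin 3} (h : ∀ a, c a = m → v a = u a) :
    gs c v m = gs c u m :=
  Finset.sum_congr rfl fun a ha => h a ((mem_fib c).mp ha)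

/-- the exponents with the same group degrees as `u` and the same part in the group `m` -/
noncomputable def WW (d : ℕ) (m : Fin 3) (u : Fin (n + 1) →₀ ℕ) : Finset (Fin (n + 1) →₀ ℕ) := by
  classical
  exact (UU n d).filter (fun v => (∀ a, c a = m → v a = u a) ∧ ∀ m', gs c v m' = gs c u m')

lemma mem_WW {d : ℕ} {m : Fin 3} {u v : Fin (n + 1) →₀ ℕ} : v ∈ WW c d m u ↔
    v ∈ UU n d ∧ (∀ a, c a = m → v a = u a) ∧ ∀ m', gs c v m' = gs c u m' := by
  classical
  simp [WW]

/-- the block of the group `m` -/
def Bl (k : ℕ) (m : Fin 3) (i : Fin (h0 n (2 * k))) : Prop :=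
  gs c (mon n (2 * k) i).1 m = 0 ∧ ∀ m', m' ≠ m → gs c (mon n (2 * k) i).1 m' = k

noncomputable instance (k : ℕ) (m : Fin 3) : DecidablePred (Bl c k m) := Classical.decPred _

/-- monomials in some block -/
def AnyBl (k : ℕ) (i : Fin (h0 n (2 * k))) : Prop := ∃ m, Bl c k m i

noncomputable instance (k : ℕ) : DecidablePred (AnyBl c k) := Classical.decPred _

lemma part_of_Bl {k : ℕ} {m : Fin 3} {i : Fin (h0 n (2 * k))} (h : Bl c k m i) :
    ∀ a, c a = m → (mon n (2 * k) i).1 a = 0 := by
  have h1 := h.1
  rw [gs, Finset.sum_eq_zero_iff] at h1
  intro a ha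
  exact h1 a ((mem_fib c).mpr ha)

/-- the position of a vertex; the vertices outside the blocks come after those in the blocks -/
noncomputable def posn (k : ℕ) (i : Fin (h0 n (2 * k))) : ℕ :=
  if AnyBl c k i then i.val else i.val + h0 n (2 * k)

lemma posn_inj (k : ℕ) : Function.Injective (posn c k) := by
  intro i j h
  simp only [posn] at h
  have hi := i.2
  have hj := j.2
  apply Fin.ext
  split_ifs at h <;> omega

/-- the projection to the span of the monomials with exponents in a finite set -/
noncomputable def prj (W : Finset (Fin (n + 1) →₀ ℕ)) (f : Poly n) : Poly n :=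
  ∑ w ∈ W, monomial w (coeff w f)

lemma coeff_prj (W : Finset (Fin (n + 1) →₀ ℕ)) (f : Poly n) (v : Fin (n + 1) →₀ ℕ) :
    coeff v (prj W f) = if v ∈ W then coeff v f else 0 := by
  simp only [prj, coeff_sum, coeff_monomial]
  rw [Finset.sum_ite_eq']

/-- the span of the monomials with exponents in a finite set -/
noncomputable def Msp (W : Finset (Fin (n + 1) →₀ ℕ)) : Submodule ℂ (Poly n) :=
  Submodule.span ℂ ((W.image (fun w => (monomial w (1 : ℂ) : Poly n)) : Finset (Poly n)) :
    Set (Poly n))

instance (W : Finset (Fin (n + 1) →₀ ℕ)) : FiniteDimensional ℂ (Msp W) := by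
  rw [Msp]
  exact FiniteDimensional.span_finset ℂ _

lemma finrank_Msp (W : Finset (Fin (n + 1) →₀ ℕ)) : Module.finrank ℂ (Msp W) ≤ W.card := by
  classical
  exact (finrank_span_finset_le_card _).trans Finset.card_image_le

lemma prj_mem (W : Finset (Fin (n + 1) →₀ ℕ)) (f : Poly n) : prj W f ∈ Msp W := by
  classical
  rw [prj]
  refine Submodule.sum_mem _ fun w hw => ?_
  have e : monomial w (coeff w f) = (coeff w f) • (monomial w (1 : ℂ) : Poly n) := by
    rw [smul_monomial, smul_eq_mul, mul_one]
  rw [e]
  refine Submodule.smul_mem _ _ (Submodule.subset_span ?_)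
  rw [Finset.coe_image]
  exact ⟨w, hw, rfl⟩

lemma sg_union {J : Type*} [LinearOrder J] {G H : Finset J} (h : Disjoint G H) (b : J) :
    sg ℂ (G ∪ H) b = sg ℂ G b * sg ℂ H b := by
  rw [sg, sg, sg, ← pow_add, Finset.filter_union, Finset.card_union_of_disjoint]
  exact Finset.disjoint_filter_filter h

/-- few leading vertices in the block -/
theorem block_bound (hc : ∀ m, (fib c m).Nonempty) {k : ℕ} {u : Fin (n + 1) →₀ ℕ}
    (hu : u ∈ UU n (2 * k)) {m : Fin 3} (hm1 : gs c u m ≤ k)
    {B : Finset (Fin (h0 n (2 * k)))} (hB : u ∈ LX (posn c k) B) :
    (B.filter (Bl c k m)).card < (WW c (2 * k) m u).card := by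
  classical
  by_contra hcon
  push Not at hcon
  obtain ⟨hus, hu1⟩ := mem_UU.mp hu
  rw [mem_LX] at hB
  obtain ⟨f, hf, hfB⟩ := hB
  change f B = monomial u 1 at hfB
  set B1 := B.filter (Bl c k m) with hB1
  set B2 := B.filter (fun b => ¬ Bl c k m b) with hB2
  have hdisj : ∀ G : Finset (Fin (h0 n (2 * k))), (∀ b ∈ G, Bl c k m b) → Disjoint G B2 := by
    intro G hG
    rw [Finset.disjoint_left]
    intro b hb hb2
    exact (Finset.mem_filter.mp hb2).2 (hG b hb)
  have hunion : B1 ∪ B2 = B := Finset.filter_union_filter_not_eq _ _
  have hB1b : ∀ b ∈ B1, Bl c k m b := fun b hb => (Finset.mem_filter.mp hb).2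
  let g : Finset (Fin (h0 n (2 * k))) → Poly n := fun G =>
    if (∀ b ∈ G, Bl c k m b) then
      (∏ b ∈ G, sg ℂ B2 b) • prj (WW c (2 * k) m u) (f (G ∪ B2)) else 0
  have hg : g = 0 := by
    refine vanish (κ := Unit) (fun _ => Bl c k m) (bas n (2 * k)) ?_ B1.card
      (Msp (WW c (2 * k) m u))
      ((finrank_Msp _).trans hcon) g ?_ ?_ ?_ ?_
    · intro _ s hs t ht b hb
      have h1 := congrArg (coeff (mon n (2 * k) b).1) ht
      rw [coeff_sum, coeff_zero, Finset.sum_eq_single b] at h1
      · simpa [bas] using h1
      · intro b' hb' hne
        rw [coeff_smul, bas, coeff_monomial, if_neg, smul_zero]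
        intro h'
        exact hne ((mon n (2 * k)).injective (Subtype.ext h'))
      · intro h; exact absurd hb h
    · intro G
      simp only [g]
      split_ifs
      · exact Submodule.smul_mem _ _ (prj_mem _ _)
      · exact Submodule.zero_mem _
    · intro G hG
      simp only [g]
      split_ifs with h
      · have h0 : f (G ∪ B2) = 0 := by
          apply hf.1.2.1
          rw [Finset.card_union_of_disjoint (hdisj G h)]
          have h1 : B1.card + B2.card = B.card := by
            rw [← Finset.card_union_of_disjoint (hdisj B1 hB1b), hunion]
          omega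
        rw [h0]
        have : prj (WW c (2 * k) m u) 0 = 0 := by
          ext v
          rw [coeff_prj]; simp
        rw [this, smul_zero]
      · rfl
    · intro G hG b hb
      refine ⟨(), ?_⟩
      by_contra h
      apply hG
      simp only [g]
      rw [if_neg]
      intro h'
      exact h (h' b hb)
    · intro _ G
      by_cases hGb : ∀ b ∈ G, Bl c k m b
      · have h2 : ∑ b ∈ Gᶜ.filter (Bl c k m), sg ℂ G b • (bas n (2 * k) b * g (insert b G)) =
            (∏ b ∈ G, sg ℂ B2 b) • ∑ b ∈ Gᶜ.filter (Bl c k m), sg ℂ (G ∪ B2) b •
              (bas n (2 * k) b * prj (WW c (2 * k) m u) (f (insert b (G ∪ B2)))) := by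
          rw [Finset.smul_sum]
          refine Finset.sum_congr rfl fun b hb => ?_
          simp only [Finset.mem_filter, Finset.mem_compl] at hb
          have h3 : ∀ c' ∈ insert b G, Bl c k m c' := by
            intro c' hc'
            rw [Finset.mem_insert] at hc'
            rcases hc' with rfl | hc'
            · exact hb.2
            · exact hGb c' hc'
          simp only [g]
          rw [if_pos h3, Finset.prod_insert hb.1, Finset.insert_union, sg_union (hdisj G hGb),
            mul_smul_comm, smul_smul, smul_smul]
          congr 1
          ring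
        rw [h2]
        have h3 : ∑ b ∈ Gᶜ.filter (Bl c k m), sg ℂ (G ∪ B2) b •
              (bas n (2 * k) b * prj (WW c (2 * k) m u) (f (insert b (G ∪ B2)))) = 0 := by
          ext v
          rw [coeff_sum, coeff_zero]
          by_cases hv : (∀ a, c a = m → v a = u a) ∧ ∀ m', m' ≠ m → gs c v m' = gs c u m' + k
          · have h1 : kosz n (2 * k) f (G ∪ B2) = 0 := by rw [hf.1.2.2]; rfl
            rw [kosz_apply'] at h1
            have h1' := congrArg (coeff v) h1
            rw [coeff_sum, coeff_zero] at h1'
            refine Eq.trans ?_ h1'
            have hsub : Gᶜ.filter (Bl c k m) ⊆ (G ∪ B2)ᶜ := by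
              intro b hb
              simp only [Finset.mem_filter, Finset.mem_compl, Finset.mem_union, not_or] at hb ⊢
              refine ⟨hb.1, ?_⟩
              intro h2
              exact (Finset.mem_filter.mp h2).2 hb.2
            rw [← Finset.sum_subset hsub]
            · refine Finset.sum_congr rfl fun b hb => ?_
              have hbb := (Finset.mem_filter.mp hb).2
              rw [coeff_smul, coeff_smul]
              refine congrArg (fun z => sg ℂ (G ∪ B2) b • z) ?_
              rw [bas, coeff_monomial_mul', coeff_monomial_mul', one_mul, one_mul]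
              by_cases hle : (mon n (2 * k) b).1 ≤ v
              · rw [if_pos hle, if_pos hle, coeff_prj]
                by_cases hne : coeff (v - (mon n (2 * k) b).1) (f (insert b (G ∪ B2))) = 0
                · rw [hne]; simp
                · rw [if_pos]
                  rw [mem_WW]
                  have hM := hf.1.1 _ _ hne
                  have hpart : ∀ a, c a = m → (v - (mon n (2 * k) b).1) a = u a := by
                    intro a ha
                    rw [Finsupp.tsub_apply, part_of_Bl c hbb a ha, hv.1 a ha, Nat.sub_zero]
                  refine ⟨mem_UU.mpr hM, hpart, ?_⟩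
                  intro m'
                  by_cases hm' : m' = m
                  · subst hm'
                    exact gs_congr c hpart
                  · have h4 := gs_sub c hle m'
                    have h5 := hbb.2 m' hm'
                    have h6 := hv.2 m' hm'
                    omega
              · rw [if_neg hle, if_neg hle]
            · intro b hb hnb
              simp only [Finset.mem_filter, Finset.mem_compl, Finset.mem_union, not_or, not_and]
                at hb hnb
              have hbb : ¬ Bl c k m b := hnb hb.1
              have hb' : b ∉ G ∪ B2 := by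
                simp only [Finset.mem_union, not_or]; exact hb
              rw [coeff_smul, bas, coeff_monomial_mul', one_mul]
              by_cases hany : AnyBl c k b
              · -- other block
                obtain ⟨m', hm'⟩ := hany
                have hne : m' ≠ m := by
                  rintro rfl
                  exact hbb hm'
                by_cases hle : (mon n (2 * k) b).1 ≤ v
                · rw [if_pos hle]
                  have hz : coeff (v - (mon n (2 * k) b).1) (f (insert b (G ∪ B2))) = 0 := by
                    by_contra hne'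
                    have hM := hf.1.1 _ _ hne'
                    have h4 := gs_sub c hle m
                    have h5 := hm'.2 m hne.symm
                    have h6 := gs_pos c hc hM.2 m
                    have h7 : gs c v m = gs c u m := gs_congr c hv.1
                    omega
                  rw [hz, smul_zero]
                · rw [if_neg hle, smul_zero]
              · have hz : f (insert b (G ∪ B2)) = 0 := by
                  apply hf.2
                  rw [wt_insert _ hb']
                  have h4 : wt (posn c k) B1 < 2 ^ (posn c k b) := by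
                    apply wt_lt (posn_inj c k)
                    intro b' hb'
                    simp only [posn]
                    rw [if_pos ⟨m, hB1b b' hb'⟩, if_neg hany]
                    have := b'.2
                    omega
                  have h5 : wt (posn c k) B = wt (posn c k) B1 + wt (posn c k) B2 := by
                    rw [← hunion, wt, Finset.sum_union (hdisj B1 hB1b)]
                    rfl
                  have h6 : wt (posn c k) (G ∪ B2) = wt (posn c k) G + wt (posn c k) B2 := by
                    rw [wt, Finset.sum_union (hdisj G hGb)]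
                    rfl
                  omega
                rw [hz]
                simp
          · apply Finset.sum_eq_zero
            intro b hb
            have hbb := (Finset.mem_filter.mp hb).2
            rw [coeff_smul, bas, coeff_monomial_mul', one_mul]
            by_cases hle : (mon n (2 * k) b).1 ≤ v
            · rw [if_pos hle, coeff_prj, if_neg, smul_zero]
              intro hmem
              rw [mem_WW] at hmem
              apply hv
              refine ⟨?_, ?_⟩
              · intro a ha
                have h4 := hmem.2.1 a ha
                rw [Finsupp.tsub_apply, part_of_Bl c hbb a ha, Nat.sub_zero] at h4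
                exact h4
              · intro m' hm'
                have h4 := gs_sub c hle m'
                have h5 := hbb.2 m' hm'
                have h6 := hmem.2.2 m'
                omega
            · rw [if_neg hle, smul_zero]
        rw [h3, smul_zero]
      · apply Finset.sum_eq_zero
        intro b _
        simp only [g]
        rw [if_neg, mul_zero, smul_zero]
        intro h
        exact hGb fun c' hc' => h c' (Finset.mem_insert_of_mem hc')
  have h1 := congrFun hg B1
  simp only [g, if_pos hB1b, hunion, Pi.zero_apply, smul_eq_zero] at h1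
  rcases h1 with h1 | h1
  · rw [Finset.prod_eq_zero_iff] at h1
    obtain ⟨b, _, hb⟩ := h1
    exact sg_ne_zero B2 b hb
  · have h2 := congrArg (coeff u) h1
    rw [coeff_prj, if_pos, hfB, coeff_monomial, if_pos rfl, coeff_zero] at h2
    · exact one_ne_zero h2
    · rw [mem_WW]
      exact ⟨hu, fun _ _ => rfl, fun _ => rfl⟩

end Pool.Agent.Y830.VN
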