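import Mathlib
import Pool.Agent.Y830.VN.Grp

/-!
Cardinalities of the blocks, and the inequality between consecutive dimensions, one exponent at a
time.
-/

set_option autoImplicit false

namespace Pool.Agent.Y830.VN

open MvPolynomial Finset
open Pool.Agent.W474.Ver

section ratio

variable {n d : ℕ} {pos : Fin (h0 n d) → ℕ}

/-- the number of leading pairs with given exponent -/
noncomputable def SS (pos : Fin (h0 n d) → ℕ) (p : ℕ) (u : Fin (n + 1) →₀ ℕ) : ℕ :=
  ∑ B ∈ Finset.powersetCard p (univ : Finset (Fin (h0 n d))), ind pos B u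

lemma finrank_KK_SS (hpos : Function.Injective pos) (p : ℕ) :
    Module.finrank ℂ (KK n d p) = ∑ u ∈ UU n d, SS pos p u := finrank_KK' hpos p

/-- The inequality between consecutive dimensions, for one exponent. -/
theorem ratio_u (u : Fin (n + 1) →₀ ℕ)
    (blk : Fin (h0 n d) → Prop) [DecidablePred blk] (N β : ℕ)
    (hβ : β ≤ (univ.filter blk).card)
    (hN : ∀ B, u ∈ LX pos B → (B.filter blk).card < N) (p : ℕ) :
    ((p : ℤ) + 2 - N) * SS pos (p + 1) u ≤ ((h0 n d : ℤ) - β + N - p - 1) * SS pos p u := by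
  have hnu : ∀ B, u ∈ LX pos B → B.card + 1 ≤ nu blk B + N := by
    intro B hB
    have h1 := hN B hB
    have h2 : (B.filter blk).card + nu blk B = B.card := by
      rw [nu]
      exact Finset.card_filter_add_card_filter_not _
    omega
  have huniv : nu blk (univ : Finset (Fin (h0 n d))) + β ≤ h0 n d := by
    have h1 := hβ
    have h2 : ((univ : Finset (Fin (h0 n d))).filter blk).card + nu blk univ =
        (univ : Finset (Fin (h0 n d))).card := by
      rw [nu]
      exact Finset.card_filter_add_card_filter_not _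
    rw [Finset.card_univ, Fintype.card_fin] at h2
    omega
  rw [SS, SS]
  push_cast
  have h1 : ((p : ℤ) + 2 - N) *
      (∑ B ∈ Finset.powersetCard (p + 1) (univ : Finset (Fin (h0 n d))), (ind pos B u : ℤ)) ≤
      ∑ B ∈ Finset.powersetCard (p + 1) (univ : Finset (Fin (h0 n d))),
        (nu blk B : ℤ) * ind pos B u := by
    rw [Finset.mul_sum]
    refine Finset.sum_le_sum fun B hB => ?_
    by_cases h : u ∈ LX pos B
    · have h2 := hnu B h
      rw [(Finset.mem_powersetCard.mp hB).2] at h2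
      apply mul_le_mul_of_nonneg_right _ (by positivity)
      omega
    · rw [ind_neg h]; simp
  have h2 : ∑ C ∈ Finset.powersetCard p (univ : Finset (Fin (h0 n d))),
        (((nu blk (univ : Finset (Fin (h0 n d))) - nu blk C : ℕ) : ℤ)) * ind pos C u ≤
      ((h0 n d : ℤ) - β + N - p - 1) *
        ∑ C ∈ Finset.powersetCard p (univ : Finset (Fin (h0 n d))), (ind pos C u : ℤ) := by
    rw [Finset.mul_sum]
    refine Finset.sum_le_sum fun C hC => ?_
    by_cases h : u ∈ LX pos C
    · have h2 := hnu C h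
      rw [(Finset.mem_powersetCard.mp hC).2] at h2
      apply mul_le_mul_of_nonneg_right _ (by positivity)
      have h3 : nu blk C ≤ nu blk (univ : Finset (Fin (h0 n d))) :=
        Finset.card_le_card (Finset.filter_subset_filter _ (Finset.subset_univ _))
      omega
    · rw [ind_neg h]; simp
  have h3 := double_count (pos := pos) blk u p
  have h4 : ∑ B ∈ Finset.powersetCard (p + 1) (univ : Finset (Fin (h0 n d))),
        (nu blk B : ℤ) * ind pos B u ≤
      ∑ C ∈ Finset.powersetCard p (univ : Finset (Fin (h0 n d))),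
        (((nu blk (univ : Finset (Fin (h0 n d))) - nu blk C : ℕ) : ℤ)) *
          ind pos C u := by
    exact_mod_cast h3
  exact (h1.trans h4).trans h2

end ratio

section card

variable {n : ℕ} (c : Fin (n + 1) → Fin 3)

/-- exponent vectors supported in one group -/
lemma card_anti_fib (m : Fin 3) (s : ℕ) (h : 1 ≤ (fib c m).card) :
    ((fib c m).card - 1).factorial * (Finset.finsuppAntidiag (fib c m) s).card =
      (s + 1).ascFactorial ((fib c m).card - 1) := by
  obtain ⟨g, hg⟩ : ∃ g, (fib c m).card = g + 1 := ⟨(fib c m).card - 1, by omega⟩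
  rw [Finset.card_finsuppAntidiag_nat_eq_choose, hg, Nat.add_sub_cancel,
    Nat.ascFactorial_eq_factorial_mul_choose]
  congr 1
  have e1 : g + 1 + s - 1 = s + g := by omega
  rw [e1, Nat.choose_symm_add]

/-- the vectors with all entries lowered by one, restricted to a group -/
noncomputable def red (m : Fin 3) (v : Fin (n + 1) →₀ ℕ) : Fin (n + 1) →₀ ℕ :=
  Finsupp.equivFunOnFinite.symm (fun a => if c a = m then v a - 1 else 0)

lemma red_apply (m : Fin 3) (v : Fin (n + 1) →₀ ℕ) (a : Fin (n + 1)) :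
    red c m v a = if c a = m then v a - 1 else 0 := rfl

lemma red_mem {m : Fin 3} {v : Fin (n + 1) →₀ ℕ} (hv : ∀ a, 1 ≤ v a) :
    red c m v ∈ Finset.finsuppAntidiag (fib c m) (gs c v m - (fib c m).card) := by
  rw [Finset.mem_finsuppAntidiag]
  refine ⟨?_, ?_⟩
  · have h1 : ∑ a ∈ fib c m, (red c m v a + 1) = gs c v m := by
      rw [gs]
      refine Finset.sum_congr rfl fun a ha => ?_
      rw [red_apply, if_pos ((mem_fib c).mp ha)]
      have := hv a
      omega
    rw [Finset.sum_add_distrib, ← Finset.card_eq_sum_ones] at h1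
    have h2 : (fib c m).sum ⇑(red c m v) = ∑ a ∈ fib c m, red c m v a := rfl
    omega
  · intro a ha
    rw [mem_fib]
    by_contra h
    rw [Finsupp.mem_support_iff, red_apply, if_neg h] at ha
    exact ha rfl

lemma card_red_le {m : Fin 3} {s : ℕ} (h1 : 1 ≤ (fib c m).card) (hs : (fib c m).card ≤ s) :
    ((fib c m).card - 1).factorial *
      (Finset.finsuppAntidiag (fib c m) (s - (fib c m).card)).card ≤
      s ^ ((fib c m).card - 1) := by
  rw [card_anti_fib c m _ h1]
  refine (Nat.ascFactorial_le_pow_add _ _).trans (Nat.pow_le_pow_left ?_ _)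
  omega

/-- the number of exponents with the same group degrees -/
lemma card_WW (hc : ∀ m, (fib c m).Nonempty) {d : ℕ} {m a b : Fin 3}
    (hcov : ∀ x : Fin 3, x = m ∨ x = a ∨ x = b) {u : Fin (n + 1) →₀ ℕ} (hu : u ∈ UU n d) :
    (((fib c a).card - 1).factorial * ((fib c b).card - 1).factorial) * (WW c d m u).card ≤
      gs c u a ^ ((fib c a).card - 1) * gs c u b ^ ((fib c b).card - 1) := by
  classical
  have hu1 := (mem_UU.mp hu).2
  have h1 : (WW c d m u).card ≤
      (Finset.finsuppAntidiag (fib c a) (gs c u a - (fib c a).card)).card *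
      (Finset.finsuppAntidiag (fib c b) (gs c u b - (fib c b).card)).card := by
    rw [← Finset.card_product]
    refine Finset.card_le_card_of_injOn (fun v => (red c a v, red c b v)) ?_ ?_
    · intro v hv
      rw [Finset.mem_coe, mem_WW] at hv
      rw [Finset.mem_coe, Finset.mem_product]
      have hv1 := (mem_UU.mp hv.1).2
      refine ⟨?_, ?_⟩
      · rw [← hv.2.2 a]
        exact red_mem c hv1
      · rw [← hv.2.2 b]
        exact red_mem c hv1
    · intro v hv w hw hvw
      rw [Finset.mem_coe, mem_WW] at hv hw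
      have hv1 := (mem_UU.mp hv.1).2
      have hw1 := (mem_UU.mp hw.1).2
      obtain ⟨ha, hb⟩ := Prod.mk.injEq _ _ _ _ ▸ hvw
      ext x
      rcases hcov (c x) with h | h | h
      · rw [hv.2.1 x h, hw.2.1 x h]
      · have h2 := DFunLike.congr_fun ha x
        rw [red_apply, red_apply, if_pos h, if_pos h] at h2
        have := hv1 x
        have := hw1 x
        omega
      · have h2 := DFunLike.congr_fun hb x
        rw [red_apply, red_apply, if_pos h, if_pos h] at h2
        have := hv1 x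
        have := hw1 x
        omega
  have h2 := card_red_le c (m := a) (s := gs c u a) (Finset.card_pos.mpr (hc a)) (gs_ge c hu1 a)
  have h3 := card_red_le c (m := b) (s := gs c u b) (Finset.card_pos.mpr (hc b)) (gs_ge c hu1 b)
  calc _ ≤ (((fib c a).card - 1).factorial * ((fib c b).card - 1).factorial) *
        ((Finset.finsuppAntidiag (fib c a) (gs c u a - (fib c a).card)).card *
      (Finset.finsuppAntidiag (fib c b) (gs c u b - (fib c b).card)).card) :=
        Nat.mul_le_mul_left _ h1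
    _ = (((fib c a).card - 1).factorial *
          (Finset.finsuppAntidiag (fib c a) (gs c u a - (fib c a).card)).card) *
        (((fib c b).card - 1).factorial *
          (Finset.finsuppAntidiag (fib c b) (gs c u b - (fib c b).card)).card) := by ring
    _ ≤ _ := Nat.mul_le_mul h2 h3

/-- the blocks are large -/
lemma card_Bl (hc : ∀ m, (fib c m).Nonempty) {k : ℕ} {m a b : Fin 3}
    (hcov : ∀ x : Fin 3, x = m ∨ x = a ∨ x = b) (hma : m ≠ a) (hmb : m ≠ b) (hab : a ≠ b) :
    k ^ ((fib c a).card - 1) * k ^ ((fib c b).card - 1) ≤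
      (((fib c a).card - 1).factorial * ((fib c b).card - 1).factorial) *
        ((univ : Finset (Fin (h0 n (2 * k)))).filter (Bl c k m)).card := by
  classical
  set A := Finset.finsuppAntidiag (fib c a) k with hA
  set A' := Finset.finsuppAntidiag (fib c b) k with hA'
  have hzero : ∀ (x y : Fin 3) (φ : Fin (n + 1) →₀ ℕ), x ≠ y →
      φ ∈ Finset.finsuppAntidiag (fib c x) k → gs c φ y = 0 := by
    intro x y φ hxy hφ
    rw [gs, Finset.sum_eq_zero_iff]
    intro i hi
    rw [Finset.mem_finsuppAntidiag] at hφ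
    by_contra h
    have h1 := hφ.2 (Finsupp.mem_support_iff.mpr h)
    rw [mem_fib] at h1 hi
    exact hxy (h1.symm.trans hi)
  have hfull : ∀ (x : Fin 3) (φ : Fin (n + 1) →₀ ℕ),
      φ ∈ Finset.finsuppAntidiag (fib c x) k → gs c φ x = k := by
    intro x φ hφ
    rw [Finset.mem_finsuppAntidiag] at hφ
    exact hφ.1
  have hgm : ∀ φ ∈ A, ∀ ψ ∈ A', gs c (φ + ψ) m = 0 := by
    intro φ hφ ψ hψ
    rw [gs_add, hzero a m φ hma.symm hφ, hzero b m ψ hmb.symm hψ]
  have hga : ∀ φ ∈ A, ∀ ψ ∈ A', gs c (φ + ψ) a = k := by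
    intro φ hφ ψ hψ
    rw [gs_add, hfull a φ hφ, hzero b a ψ hab.symm hψ, add_zero]
  have hgb : ∀ φ ∈ A, ∀ ψ ∈ A', gs c (φ + ψ) b = k := by
    intro φ hφ ψ hψ
    rw [gs_add, hfull b ψ hψ, hzero a b φ hab hφ, zero_add]
  have hsum : ∀ φ ∈ A, ∀ ψ ∈ A', ∑ i, (φ + ψ) i = 2 * k := by
    intro φ hφ ψ hψ
    have h1 : (univ : Finset (Fin 3)) = {m, a, b} := by
      ext x
      simp only [Finset.mem_univ, Finset.mem_insert, Finset.mem_singleton, true_iff]
      exact hcov x
    rw [sum_gs c, h1, Finset.sum_insert, Finset.sum_pair hab, hgm φ hφ ψ hψ, hga φ hφ ψ hψ,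
      hgb φ hφ ψ hψ]
    · ring
    · simp only [Finset.mem_insert, Finset.mem_singleton, not_or]
      exact ⟨hma, hmb⟩
  have hcard : A.card * A'.card ≤
      ((univ : Finset (Fin (h0 n (2 * k)))).filter (Bl c k m)).card := by
    rw [← Finset.card_product]
    refine Finset.card_le_card_of_injOn
      (fun x => if h : ∑ i, (x.1 + x.2) i = 2 * k then (mon n (2 * k)).symm ⟨x.1 + x.2, h⟩ else
        (mon n (2 * k)).symm ⟨Finsupp.single 0 (2 * k), by
          simp only [Finsupp.single_apply]; simp⟩) ?_ ?_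
    · rintro ⟨φ, ψ⟩ hx
      rw [Finset.mem_coe, Finset.mem_product] at hx
      have h := hsum φ hx.1 ψ hx.2
      simp only [dif_pos h]
      rw [Finset.mem_coe, Finset.mem_filter]
      refine ⟨Finset.mem_univ _, ?_, ?_⟩
      · rw [Equiv.apply_symm_apply]
        exact hgm φ hx.1 ψ hx.2
      · intro m' hm'
        rw [Equiv.apply_symm_apply]
        rcases hcov m' with h' | h' | h'
        · exact absurd h' hm'
        · rw [h']; exact hga φ hx.1 ψ hx.2
        · rw [h']; exact hgb φ hx.1 ψ hx.2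
    · rintro ⟨φ, ψ⟩ hx ⟨φ', ψ'⟩ hx' h
      rw [Finset.mem_coe, Finset.mem_product] at hx hx'
      simp only [dif_pos (hsum φ hx.1 ψ hx.2), dif_pos (hsum φ' hx'.1 ψ' hx'.2)] at h
      have h1 := congrArg Subtype.val ((mon n (2 * k)).symm.injective h)
      change φ + ψ = φ' + ψ' at h1
      have hsupp : ∀ (x : Fin 3) (χ : Fin (n + 1) →₀ ℕ),
          χ ∈ Finset.finsuppAntidiag (fib c x) k → ∀ i, c i ≠ x → χ i = 0 := by
        intro x χ hχ i hi
        rw [Finset.mem_finsuppAntidiag] at hχ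
        by_contra h
        exact hi ((mem_fib c).mp (hχ.2 (Finsupp.mem_support_iff.mpr h)))
      have e1 : φ = φ' := by
        ext i
        by_cases hi : c i = a
        · have h2 := DFunLike.congr_fun h1 i
          rw [Finsupp.add_apply, Finsupp.add_apply,
            hsupp b ψ hx.2 i (by rw [hi]; exact hab), hsupp b ψ' hx'.2 i (by rw [hi]; exact hab)]
            at h2
          simpa using h2
        · rw [hsupp a φ hx.1 i hi, hsupp a φ' hx'.1 i hi]
      subst e1
      have e2 : ψ = ψ' := add_left_cancel h1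
      rw [e2]
  have h2 : k ^ ((fib c a).card - 1) ≤ ((fib c a).card - 1).factorial * A.card := by
    rw [hA, card_anti_fib c a k (Finset.card_pos.mpr (hc a))]
    exact (Nat.pow_le_pow_left (Nat.le_succ k) _).trans (Nat.pow_succ_le_ascFactorial _ _)
  have h3 : k ^ ((fib c b).card - 1) ≤ ((fib c b).card - 1).factorial * A'.card := by
    rw [hA', card_anti_fib c b k (Finset.card_pos.mpr (hc b))]
    exact (Nat.pow_le_pow_left (Nat.le_succ k) _).trans (Nat.pow_succ_le_ascFactorial _ _)
  calc _ ≤ (((fib c a).card - 1).factorial * A.card) *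
        (((fib c b).card - 1).factorial * A'.card) := Nat.mul_le_mul h2 h3
    _ = (((fib c a).card - 1).factorial * ((fib c b).card - 1).factorial) *
        (A.card * A'.card) := by ring
    _ ≤ _ := Nat.mul_le_mul_left _ hcard

/-- the elementary inequality -/
lemma key_ineq {x y k α γ : ℕ} (hα : 2 ≤ α) (hγ : 2 ≤ γ) (h1 : α ≤ γ + 1) (h2 : γ ≤ α + 1)
    (hx : x ≤ k) (hy : y + 2 * x ≤ 2 * k) : 8 * (x ^ α * y ^ γ) ≤ 3 * (k ^ α * k ^ γ) := by
  have hxy : 2 * (x * y) ≤ k ^ 2 := by
    obtain ⟨t, rfl⟩ : ∃ t, k = x + t := ⟨k - x, by omega⟩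
    have h3 : y ≤ 2 * t := by omega
    calc 2 * (x * y) ≤ 2 * (x * (2 * t)) := by gcongr
      _ ≤ (x + t) ^ 2 := by
        zify
        nlinarith [sq_nonneg ((x : ℤ) - t)]
  have hpow : ∀ e : ℕ, 2 ^ e * (x ^ e * y ^ e) ≤ k ^ (2 * e) := by
    intro e
    rw [← mul_pow, ← mul_pow, pow_mul]
    exact Nat.pow_le_pow_left hxy e
  have hcases : γ = α ∨ γ = α + 1 ∨ α = γ + 1 := by omega
  rcases hcases with rfl | rfl | rfl
  · have h3 := hpow γ
    have h4 : 2 ^ 2 ≤ 2 ^ γ := Nat.pow_le_pow_right (by norm_num) hγ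
    calc 8 * (x ^ γ * y ^ γ) = 2 * (2 ^ 2 * (x ^ γ * y ^ γ)) := by ring
      _ ≤ 2 * (2 ^ γ * (x ^ γ * y ^ γ)) := by gcongr
      _ ≤ 2 * k ^ (2 * γ) := by gcongr
      _ ≤ 3 * k ^ (2 * γ) := by omega
      _ = 3 * (k ^ γ * k ^ γ) := by rw [two_mul, pow_add]
  · have hy2 : y ≤ 2 * k := by omega
    by_cases h5 : 3 ≤ α
    · have h3 := hpow α
      have h4 : 2 ^ 3 ≤ 2 ^ α := Nat.pow_le_pow_right (by norm_num) h5
      calc 8 * (x ^ α * y ^ (α + 1)) = (2 ^ 3 * (x ^ α * y ^ α)) * y := by ring
        _ ≤ (2 ^ α * (x ^ α * y ^ α)) * (2 * k) := by gcongr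
        _ ≤ k ^ (2 * α) * (2 * k) := by gcongr
        _ ≤ 3 * (k ^ α * k ^ (α + 1)) := by
          have e : k ^ α * k ^ (α + 1) = k ^ (2 * α) * k := by ring
          rw [e]
          have := Nat.zero_le (k ^ (2 * α) * k)
          nlinarith
    · obtain rfl : α = 2 := by omega
      obtain ⟨t, rfl⟩ : ∃ t, k = x + t := ⟨k - x, by omega⟩
      have h3 : y ≤ 2 * t := by omega
      calc 8 * (x ^ 2 * y ^ (2 + 1)) ≤ 8 * (x ^ 2 * (2 * t) ^ (2 + 1)) := by gcongr
        _ ≤ 3 * ((x + t) ^ 2 * (x + t) ^ (2 + 1)) := by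
          zify
          have hx0 : (0 : ℤ) ≤ x := Int.natCast_nonneg x
          have ht0 : (0 : ℤ) ≤ t := Int.natCast_nonneg t
          have h6 : (0 : ℤ) ≤ ((x : ℤ) * t ^ 2) * (30 * x ^ 2 - 34 * x * t + 15 * t ^ 2) := by
            apply mul_nonneg (by positivity)
            nlinarith [sq_nonneg (17 * (t : ℤ) - 30 * x), sq_nonneg ((t : ℤ)), sq_nonneg ((x : ℤ))]
          have h7 : (0 : ℤ) ≤ 3 * (x : ℤ) ^ 5 + 15 * x ^ 4 * t + 3 * t ^ 5 := by positivity
          have e : 3 * (((x : ℤ) + t) ^ 2 * (x + t) ^ (2 + 1)) -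
              8 * ((x : ℤ) ^ 2 * (2 * t) ^ (2 + 1)) =
              ((x : ℤ) * t ^ 2) * (30 * x ^ 2 - 34 * x * t + 15 * t ^ 2) +
              (3 * (x : ℤ) ^ 5 + 15 * x ^ 4 * t + 3 * t ^ 5) := by ring
          linarith
  · have h3 := hpow γ
    have h4 : 2 ^ 2 ≤ 2 ^ γ := Nat.pow_le_pow_right (by norm_num) hγ
    calc 8 * (x ^ (γ + 1) * y ^ γ) = 2 * (2 ^ 2 * (x ^ γ * y ^ γ)) * x := by ring
      _ ≤ 2 * (2 ^ γ * (x ^ γ * y ^ γ)) * k := by gcongr
      _ ≤ 2 * k ^ (2 * γ) * k := by gcongr
      _ ≤ 3 * k ^ (2 * γ) * k := by gcongr; norm_num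
      _ = 3 * (k ^ (γ + 1) * k ^ γ) := by ring

/-- the median group -/
lemma exists_med (k : ℕ) (s : Fin 3 → ℕ) (hs : ∑ m, s m = 2 * k) :
    ∃ m a b : Fin 3, (∀ x : Fin 3, x = m ∨ x = a ∨ x = b) ∧ m ≠ a ∧ m ≠ b ∧ a ≠ b ∧
      s m ≤ k ∧ s a ≤ k ∧ s b + 2 * s a ≤ 2 * k := by
  rw [Fin.sum_univ_three] at hs
  rcases le_total (s 0) (s 1) with h01 | h01 <;> rcases le_total (s 1) (s 2) with h12 | h12 <;>
    rcases le_total (s 0) (s 2) with h02 | h02
  · exact ⟨1, 0, 2, by decide, by decide, by decide, by decide, by omega, by omega, by omega⟩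
  · exact ⟨1, 0, 2, by decide, by decide, by decide, by decide, by omega, by omega, by omega⟩
  · exact ⟨2, 0, 1, by decide, by decide, by decide, by decide, by omega, by omega, by omega⟩
  · exact ⟨0, 2, 1, by decide, by decide, by decide, by decide, by omega, by omega, by omega⟩
  · exact ⟨0, 1, 2, by decide, by decide, by decide, by decide, by omega, by omega, by omega⟩
  · exact ⟨2, 1, 0, by decide, by decide, by decide, by decide, by omega, by omega, by omega⟩
  · exact ⟨1, 2, 0, by decide, by decide, by decide, by decide, by omega, by omega, by omega⟩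
  · exact ⟨1, 2, 0, by decide, by decide, by decide, by decide, by omega, by omega, by omega⟩

end card

end Pool.Agent.Y830.VN
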