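import Mathlib
import Pool.Agent.Y830.VN.Ratio

/-!
The decay of the dimensions of the spaces of cycles past the middle.
-/

set_option autoImplicit false

namespace Pool.Agent.Y830.VN

open MvPolynomial Finset
open Pool.Agent.W474.Ver

variable {n : ℕ}

/-- three groups of variables of nearly the same size, small enough -/
structure Gd (c : Fin (n + 1) → Fin 3) (ε : ℕ) : Prop where
  three : ∀ m, 3 ≤ (fib c m).card
  near : ∀ m m', (fib c m).card ≤ (fib c m').card + 1
  small : ∀ m, 2 * (fib c m).card + 2 + ε ≤ n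

lemma exists_Gd {ε : ℕ} (h8 : 8 ≤ n) (h : 2 * (n / 3) + 4 + ε ≤ n) :
    ∃ c : Fin (n + 1) → Fin 3, Gd c ε := by
  classical
  let sz : Fin 3 → ℕ := ![(n + 1) / 3, (n + 2) / 3, (n + 3) / 3]
  have hcard : Fintype.card (Σ m : Fin 3, Fin (sz m)) = n + 1 := by
    rw [Fintype.card_sigma, Fin.sum_univ_three]
    simp only [Fintype.card_fin, sz]
    simp
    omega
  let e : (Σ m : Fin 3, Fin (sz m)) ≃ Fin (n + 1) := Fintype.equivFinOfCardEq hcard
  have hfib : ∀ m, (fib (fun a => (e.symm a).1) m).card = sz m := by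
    intro m
    have h1 : fib (fun a => (e.symm a).1) m =
        (univ : Finset (Fin (sz m))).image (fun j => e ⟨m, j⟩) := by
      ext a
      rw [mem_fib, Finset.mem_image]
      constructor
      · intro ha
        subst ha
        exact ⟨(e.symm a).2, Finset.mem_univ _, e.apply_symm_apply a⟩
      · rintro ⟨j, _, rfl⟩
        rw [Equiv.symm_apply_apply]
    rw [h1, Finset.card_image_of_injective, Finset.card_univ, Fintype.card_fin]
    intro i j hij
    have h2 : (⟨m, i⟩ : Σ m : Fin 3, Fin (sz m)) = ⟨m, j⟩ := e.injective hij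
    exact eq_of_heq (Sigma.mk.inj h2).2
  refine ⟨fun a => (e.symm a).1, ?_, ?_, ?_⟩
  · intro m
    rw [hfib]
    fin_cases m <;> simp [sz] <;> omega
  · intro m m'
    rw [hfib, hfib]
    fin_cases m <;> fin_cases m' <;> simp [sz] <;> omega
  · intro m
    rw [hfib]
    fin_cases m <;> simp [sz] <;> omega

lemma h0_eq_choose (d : ℕ) : h0 n d = (d + n).choose n := by
  have e : Mon n d ≃ {a // a ∈ Finset.finsuppAntidiag (Finset.univ : Finset (Fin (n + 1))) d} :=
    Equiv.subtypeEquivRight (fun u => by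
      rw [Finset.mem_finsuppAntidiag]
      exact ⟨fun h => ⟨h, Finset.subset_univ _⟩, fun h => h.1⟩)
  rw [h0, Nat.card_congr e, Nat.card_eq_fintype_card, Fintype.card_coe,
    Finset.card_finsuppAntidiag_nat_eq_choose, Finset.card_univ, Fintype.card_fin]
  have e1 : n + 1 + d - 1 = d + n := by omega
  rw [e1, Nat.choose_symm_add]

lemma fact_h0 (d : ℕ) : n.factorial * h0 n d = (d + 1).ascFactorial n := by
  rw [h0_eq_choose, Nat.ascFactorial_eq_factorial_mul_choose]

lemma h0_lower (d : ℕ) : (d + 1) ^ n ≤ n.factorial * h0 n d := by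
  rw [fact_h0]
  exact Nat.pow_succ_le_ascFactorial (d + 1) n

lemma h0_upper (d : ℕ) : n.factorial * h0 n d ≤ (d + n) ^ n := by
  rw [fact_h0]
  exact Nat.ascFactorial_le_pow_add d n

/-- the loss at each step -/
noncomputable def yy (n ε k : ℕ) : ℝ :=
  √((k : ℝ) ^ (n + ε)) / (4 * (n.factorial : ℝ) ^ 2 * h0 n (2 * k))

lemma yy_nonneg (n ε k : ℕ) : 0 ≤ yy n ε k := by rw [yy]; positivity

lemma h0_pos (d : ℕ) : 1 ≤ h0 n d := by
  rw [h0_eq_choose]
  exact Nat.choose_pos (by omega)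

lemma yy_le_one {ε k : ℕ} (hε : ε ≤ n) (hk : 1 ≤ k) : yy n ε k ≤ 1 := by
  have hH : (1 : ℝ) ≤ h0 n (2 * k) := by exact_mod_cast h0_pos (2 * k)
  have hf : (1 : ℝ) ≤ (n.factorial : ℝ) := by exact_mod_cast Nat.factorial_pos n
  have hk' : (1 : ℝ) ≤ k := by exact_mod_cast hk
  rw [yy, div_le_one (by positivity)]
  have h1 : √((k : ℝ) ^ (n + ε)) ≤ (k : ℝ) ^ n := by
    rw [Real.sqrt_le_left (by positivity), ← pow_mul]
    exact pow_le_pow_right₀ hk' (by omega)
  have h2 : ((2 * k + 1 : ℕ) : ℝ) ^ n ≤ n.factorial * h0 n (2 * k) := by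
    exact_mod_cast h0_lower (n := n) (2 * k)
  have h3 : (k : ℝ) ^ n ≤ ((2 * k + 1 : ℕ) : ℝ) ^ n := by
    apply pow_le_pow_left₀ (by positivity)
    push_cast
    linarith
  calc √((k : ℝ) ^ (n + ε)) ≤ (k : ℝ) ^ n := h1
    _ ≤ n.factorial * h0 n (2 * k) := h3.trans h2
    _ ≤ 4 * (n.factorial : ℝ) ^ 2 * h0 n (2 * k) := by
      apply mul_le_mul_of_nonneg_right _ (by positivity)
      nlinarith

lemma step_u {c : Fin (n + 1) → Fin 3} {ε : ℕ} (h : Gd c ε) {k : ℕ} (hk : 1 ≤ k)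
    {u : Fin (n + 1) →₀ ℕ} (hu : u ∈ UU n (2 * k)) {p : ℕ} (hp : h0 n (2 * k) ≤ 2 * p + 1) :
    (SS (posn c k) (p + 1) u : ℝ) ≤ (1 - yy n ε k) * SS (posn c k) p u := by
  classical
  have hne : ∀ m, (fib c m).Nonempty := fun m =>
    Finset.card_pos.mp (by have := h.three m; omega)
  obtain ⟨m, a, b, hcov, hma, hmb, hab, hm1, ha1, hb1⟩ := exists_med k (gs c u)
    (by rw [← sum_gs]; exact (mem_UU.mp hu).1)
  have hsum : (fib c m).card + (fib c a).card + (fib c b).card = n + 1 := by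
    have h1 : (univ : Finset (Fin 3)) = {m, a, b} := by
      ext x
      simp only [Finset.mem_univ, Finset.mem_insert, Finset.mem_singleton, true_iff]
      exact hcov x
    have h2 : ∑ x : Fin 3, (fib c x).card = n + 1 := by
      have h3 := Finset.sum_fiberwise univ c (fun _ => 1)
      simp only [Finset.sum_const, smul_eq_mul, mul_one, Finset.card_univ, Fintype.card_fin] at h3
      exact h3
    rw [h1, Finset.sum_insert, Finset.sum_pair hab] at h2
    · omega
    · simp only [Finset.mem_insert, Finset.mem_singleton, not_or]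
      exact ⟨hma, hmb⟩
  have tm := h.three m
  have ta := h.three a
  have tb := h.three b
  have sm := h.small m
  set α := (fib c a).card - 1 with hα
  set γ := (fib c b).card - 1 with hγ
  set N := (WW c (2 * k) m u).card with hN
  set β := ((univ : Finset (Fin (h0 n (2 * k)))).filter (Bl c k m)).card with hβ
  have c1 := card_WW c hne hcov hu
  have c2 := card_Bl c hne (k := k) hcov hma hmb hab
  have c3 := key_ineq (x := gs c u a) (y := gs c u b) (k := k) (α := α) (γ := γ)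
    (by omega) (by omega) (by have := h.near a b; omega) (by have := h.near b a; omega) ha1 hb1
  rw [← hα, ← hγ] at c1 c2
  rw [← hN] at c1
  rw [← hβ] at c2
  set Q := α.factorial * γ.factorial with hQ
  have hQpos : 0 < Q := by rw [hQ]; positivity
  have c4 : 8 * N ≤ 3 * β := by
    have h1 : Q * (8 * N) ≤ Q * (3 * β) := by
      calc Q * (8 * N) = 8 * (Q * N) := by ring
        _ ≤ 8 * (gs c u a ^ α * gs c u b ^ γ) := Nat.mul_le_mul_left _ c1
        _ ≤ 3 * (k ^ α * k ^ γ) := c3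
        _ ≤ 3 * (Q * β) := Nat.mul_le_mul_left _ c2
        _ = Q * (3 * β) := by ring
    exact Nat.le_of_mul_le_mul_left h1 hQpos
  have c5 : β ≤ h0 n (2 * k) := by
    rw [hβ]
    refine (Finset.card_filter_le _ _).trans ?_
    rw [Finset.card_univ, Fintype.card_fin]
  have c6 := ratio_u (pos := posn c k) u (Bl c k m) N β le_rfl
    (fun B hB => block_bound c hne hu hm1 hB) p
  have c7 : (((p : ℝ) + 2 - N) * SS (posn c k) (p + 1) u : ℝ) ≤
      ((h0 n (2 * k) : ℝ) - β + N - p - 1) * SS (posn c k) p u := by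
    exact_mod_cast c6
  have hH : (1 : ℝ) ≤ h0 n (2 * k) := by exact_mod_cast h0_pos (2 * k)
  have r4 : 8 * (N : ℝ) ≤ 3 * β := by exact_mod_cast c4
  have r5 : (β : ℝ) ≤ h0 n (2 * k) := by exact_mod_cast c5
  have rp : (h0 n (2 * k) : ℝ) ≤ 2 * p + 1 := by exact_mod_cast hp
  have rN : (0 : ℝ) ≤ N := Nat.cast_nonneg _
  have rβ : (0 : ℝ) ≤ β := Nat.cast_nonneg _
  -- the loss
  have hk' : (1 : ℝ) ≤ k := by exact_mod_cast hk
  have hy : yy n ε k ≤ (β - 2 * N) / h0 n (2 * k) := by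
    have h1 : √((k : ℝ) ^ (n + ε)) ≤ (n.factorial : ℝ) ^ 2 * β := by
      have h2 : √((k : ℝ) ^ (n + ε)) ≤ (k : ℝ) ^ α * (k : ℝ) ^ γ := by
        rw [Real.sqrt_le_left (by positivity), ← pow_add, ← pow_mul]
        exact pow_le_pow_right₀ hk' (by omega)
      have h3 : (k : ℝ) ^ α * (k : ℝ) ^ γ ≤ Q * β := by exact_mod_cast c2
      have h4 : (Q : ℝ) ≤ (n.factorial : ℝ) ^ 2 := by
        rw [hQ]
        push_cast
        rw [sq]
        apply mul_le_mul
        · exact_mod_cast Nat.factorial_le (by omega)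
        · exact_mod_cast Nat.factorial_le (by omega)
        · positivity
        · positivity
      exact h2.trans (h3.trans (mul_le_mul_of_nonneg_right h4 rβ))
    rw [yy, div_le_div_iff₀ (by positivity) (by linarith)]
    have h5 : (β : ℝ) ≤ 4 * (β - 2 * N) := by linarith
    calc √((k : ℝ) ^ (n + ε)) * (h0 n (2 * k) : ℝ)
        ≤ ((n.factorial : ℝ) ^ 2 * β) * h0 n (2 * k) :=
          mul_le_mul_of_nonneg_right h1 (by linarith)
      _ ≤ ((n.factorial : ℝ) ^ 2 * (4 * (β - 2 * N))) * h0 n (2 * k) := by gcongr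
      _ = (β - 2 * N) * (4 * (n.factorial : ℝ) ^ 2 * h0 n (2 * k)) := by ring
  set H : ℝ := (h0 n (2 * k) : ℝ) with hHd
  set δ : ℝ := β - 2 * N with hδ
  have hδ0 : 0 ≤ δ := by rw [hδ]; linarith
  have hδH : δ ≤ H := by rw [hδ]; linarith
  have hx : 0 < (p : ℝ) + 2 - N := by linarith
  have hmain : H - β + N - p - 1 ≤ (1 - yy n ε k) * (p + 2 - N) := by
    have h1 : yy n ε k * ((p : ℝ) + 2 - N) ≤ δ / H * (p + 2) := by
      apply mul_le_mul hy (by linarith) hx.le (by positivity)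
    have h2 : δ / H * (p + 2) ≤ δ / 2 + (2 * p + 1 - H) / 2 + 3 / 2 := by
      rw [div_mul_eq_mul_div, div_le_iff₀ (by linarith)]
      have ht : 0 ≤ 2 * (p : ℝ) + 1 - H := by linarith
      nlinarith [mul_nonneg hδ0 ht, mul_nonneg ht (by linarith : (0 : ℝ) ≤ H - δ)]
    have h3 : (1 - yy n ε k) * ((p : ℝ) + 2 - N) =
        (p + 2 - N) - yy n ε k * ((p : ℝ) + 2 - N) := by ring
    rw [h3]
    have h4 : (p : ℝ) + 2 - N - (H - β + N - p - 1) = 2 * p + 3 - H + δ := by
      rw [hδ]; ring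
    linarith
  have hS : (0 : ℝ) ≤ SS (posn c k) p u := Nat.cast_nonneg _
  have h10 : ((p : ℝ) + 2 - N) * (SS (posn c k) (p + 1) u : ℝ) ≤
      ((p : ℝ) + 2 - N) * ((1 - yy n ε k) * SS (posn c k) p u) := by
    calc ((p : ℝ) + 2 - N) * (SS (posn c k) (p + 1) u : ℝ)
        ≤ (H - β + N - p - 1) * SS (posn c k) p u := c7
      _ ≤ ((1 - yy n ε k) * (p + 2 - N)) * SS (posn c k) p u :=
          mul_le_mul_of_nonneg_right hmain hS
      _ = _ := by ring
  exact le_of_mul_le_mul_left h10 hx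

/-- the dimension of the space of cycles -/
noncomputable def kap (n d p : ℕ) : ℝ := (Module.finrank ℂ (KK n d p) : ℝ)

lemma kap_nonneg (n d p : ℕ) : 0 ≤ kap n d p := Nat.cast_nonneg _

lemma step {c : Fin (n + 1) → Fin 3} {ε : ℕ} (h : Gd c ε) {k : ℕ} (hk : 1 ≤ k) {p : ℕ}
    (hp : h0 n (2 * k) ≤ 2 * p + 1) :
    kap n (2 * k) (p + 1) ≤ (1 - yy n ε k) * kap n (2 * k) p := by
  rw [kap, kap, finrank_KK_SS (posn_inj c k), finrank_KK_SS (posn_inj c k)]
  push_cast
  rw [Finset.mul_sum]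
  exact Finset.sum_le_sum fun u hu => step_u h hk hu hp

lemma iter {c : Fin (n + 1) → Fin 3} {ε : ℕ} (h : Gd c ε) {k : ℕ} (hk : 1 ≤ k) {p : ℕ}
    (hp : h0 n (2 * k) ≤ 2 * p + 1) (s : ℕ) :
    kap n (2 * k) (p + s) ≤ Real.exp (-(s * yy n ε k)) * kap n (2 * k) p := by
  have hε : ε ≤ n := by have := h.small 0; omega
  have h0' : 0 ≤ 1 - yy n ε k := by
    have := yy_le_one (n := n) hε hk
    linarith
  have h1 : kap n (2 * k) (p + s) ≤ (1 - yy n ε k) ^ s * kap n (2 * k) p := by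
    induction s with
    | zero => simp
    | succ s ih =>
      have h1 : kap n (2 * k) (p + s + 1) ≤ (1 - yy n ε k) * kap n (2 * k) (p + s) :=
        step h hk (by omega)
      calc kap n (2 * k) (p + (s + 1)) = kap n (2 * k) (p + s + 1) := by rw [add_assoc]
        _ ≤ _ := h1
        _ ≤ (1 - yy n ε k) * ((1 - yy n ε k) ^ s * kap n (2 * k) p) :=
            mul_le_mul_of_nonneg_left ih h0'
        _ = _ := by ring
  refine h1.trans (mul_le_mul_of_nonneg_right ?_ (kap_nonneg _ _ _))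
  have h2 : 1 - yy n ε k ≤ Real.exp (-yy n ε k) := by
    have := Real.add_one_le_exp (-yy n ε k)
    linarith
  calc (1 - yy n ε k) ^ s ≤ Real.exp (-yy n ε k) ^ s := pow_le_pow_left₀ h0' h2 _
    _ = Real.exp (-(s * yy n ε k)) := by rw [← Real.exp_nat_mul]; ring_nf

end Pool.Agent.Y830.VN
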